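import Mathlib

/-! The inequality for a family of triangular matrices `C k` with `∑ (C k)ᴴ * C k = 1`. -/

open scoped Matrix

set_option linter.unusedSectionVars false

namespace Pool.Agent.V11196.GP

variable {n : Type*} [Fintype n] [DecidableEq n]

theorem layer (α d : n → ℝ) (s : Finset n) :
    ∀ A : ℝ, (∀ i ∈ s, α i ≤ A) → (∀ θ ≤ A, 0 ≤ ∑ i ∈ s.filter (fun i => α i < θ), d i) →
      0 ≤ ∑ i ∈ s, (A - α i) * d i := by
  induction s using Finset.induction_on_max_value α with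
  | empty => intro A _ _; simp
  | insert a s ha hmax ih =>
    intro A hA hθ
    have haA : α a ≤ A := hA a (Finset.mem_insert_self _ _)
    have h1 : 0 ≤ ∑ i ∈ s, (α a - α i) * d i := by
      refine ih (α a) hmax fun θ hle => ?_
      have h2 := hθ θ (hle.trans haA)
      have h3 : (insert a s).filter (fun i => α i < θ) = s.filter (fun i => α i < θ) := by
        rw [Finset.filter_insert, if_neg (not_lt.mpr hle)]
      rwa [h3] at h2
    have h4 : ∑ i ∈ insert a s, (A - α i) * d i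
        = (A - α a) * (∑ i ∈ insert a s, d i) + ∑ i ∈ s, (α a - α i) * d i := by
      rw [Finset.sum_insert ha, Finset.sum_insert ha, mul_add, Finset.mul_sum, add_assoc,
        ← Finset.sum_add_distrib]
      congr 1
      refine Finset.sum_congr rfl fun i _ => ?_
      ring
    rw [h4]
    refine add_nonneg ?_ h1
    rcases haA.eq_or_lt with h | h
    · rw [← h, sub_self, zero_mul]
    · refine mul_nonneg (sub_nonneg.mpr haA) ?_
      have h5 := hθ A le_rfl
      have h6 : (insert a s).filter (fun i => α i < A) = insert a s := by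
        refine Finset.filter_true_of_mem fun i hi => ?_
        rcases Finset.mem_insert.mp hi with rfl | hi
        · exact h
        · exact (hmax i hi).trans_lt h
      rwa [h6] at h5

theorem layer_le (α q r : n → ℝ) (htot : ∑ i, q i = ∑ i, r i)
    (hle : ∀ θ : ℝ, ∑ i ∈ Finset.univ.filter (fun i => α i < θ), q i
      ≤ ∑ i ∈ Finset.univ.filter (fun i => α i < θ), r i) :
    ∑ i, α i * r i ≤ ∑ i, α i * q i := by
  let A : ℝ := ∑ i, |α i|
  have hA : ∀ i, α i ≤ A := fun i =>
    (le_abs_self _).trans (Finset.single_le_sum (f := fun i => |α i|)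
      (fun j _ => abs_nonneg _) (Finset.mem_univ i))
  have h := layer α (fun i => r i - q i) Finset.univ A (fun i _ => hA i) (fun θ _ => by
    rw [Finset.sum_sub_distrib]
    linarith [hle θ])
  have h2 : ∑ i, (A - α i) * (r i - q i)
      = A * (∑ i, r i - ∑ i, q i) - (∑ i, α i * r i - ∑ i, α i * q i) := by
    rw [← Finset.sum_sub_distrib, ← Finset.sum_sub_distrib, Finset.mul_sum,
      ← Finset.sum_sub_distrib]
    refine Finset.sum_congr rfl fun i _ => ?_
    ring
  rw [h2, htot, sub_self, mul_zero] at h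
  linarith

/-- squared norm -/
noncomputable def nsq (v : n → ℂ) : ℝ := ∑ i, ‖v i‖ ^ 2

theorem nsq_eq (v : n → ℂ) : star v ⬝ᵥ v = ((nsq v : ℝ) : ℂ) := by
  unfold nsq dotProduct
  rw [Complex.ofReal_sum]
  refine Finset.sum_congr rfl fun i _ => ?_
  rw [Pi.star_apply, Complex.star_def, ← Complex.normSq_eq_conj_mul_self, Complex.normSq_eq_norm_sq]

theorem star_mulVec_dot (A B : Matrix n n ℂ) (v w : n → ℂ) :
    star (A *ᵥ v) ⬝ᵥ (B *ᵥ w) = star v ⬝ᵥ ((Aᴴ * B) *ᵥ w) := by
  rw [Matrix.star_mulVec, ← Matrix.dotProduct_mulVec, Matrix.mulVec_mulVec]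

theorem sum_nsq {κ : Type*} [Fintype κ] (C : κ → Matrix n n ℂ) (hC : ∑ k, (C k)ᴴ * C k = 1)
    (v : n → ℂ) : ∑ k, nsq (C k *ᵥ v) = nsq v := by
  have h : ((∑ k, nsq (C k *ᵥ v) : ℝ) : ℂ) = ((nsq v : ℝ) : ℂ) := by
    rw [Complex.ofReal_sum, ← nsq_eq]
    have h1 : ∀ k, ((nsq (C k *ᵥ v) : ℝ) : ℂ) = star v ⬝ᵥ (((C k)ᴴ * C k) *ᵥ v) := by
      intro k
      rw [← nsq_eq, star_mulVec_dot]
    rw [Finset.sum_congr rfl fun k _ => h1 k, ← dotProduct_sum, ← Matrix.sum_mulVec, hC,
      Matrix.one_mulVec]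
  exact_mod_cast h

theorem triangular_ineq {κ : Type*} [Fintype κ] (α : n → ℝ) (C : κ → Matrix n n ℂ)
    (hC : ∑ k, (C k)ᴴ * C k = 1) (htri : ∀ k i j, α i < α j → C k i j = 0) (x : n → ℂ) :
    ∑ i, α i * ‖x i‖ ^ 2 ≤ ∑ k, ∑ i, α i * ‖(C k *ᵥ x) i‖ ^ 2 := by
  have h1 : ∑ k, ∑ i, α i * ‖(C k *ᵥ x) i‖ ^ 2 = ∑ i, α i * ∑ k, ‖(C k *ᵥ x) i‖ ^ 2 := by
    rw [Finset.sum_comm]
    refine Finset.sum_congr rfl fun i _ => ?_
    rw [Finset.mul_sum]
  rw [h1]
  refine layer_le α _ _ ?_ ?_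
  · rw [Finset.sum_comm]
    exact sum_nsq C hC x
  · intro θ
    let y : n → ℂ := fun j => if α j < θ then x j else 0
    have hy : nsq y = ∑ i ∈ Finset.univ.filter (fun i => α i < θ), ‖x i‖ ^ 2 := by
      unfold nsq
      rw [Finset.sum_filter]
      refine Finset.sum_congr rfl fun i _ => ?_
      by_cases h : α i < θ
      · simp [y, h]
      · simp [y, h]
    have hCy : ∀ k i, α i < θ → (C k *ᵥ x) i = (C k *ᵥ y) i := by
      intro k i hi
      unfold Matrix.mulVec dotProduct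
      refine Finset.sum_congr rfl fun j _ => ?_
      by_cases h : α j < θ
      · simp [y, h]
      · show C k i j * x j = C k i j * y j
        rw [htri k i j (hi.trans_le (not_lt.mp h)), zero_mul, zero_mul]
    rw [Finset.sum_comm, ← hy, ← sum_nsq C hC y]
    refine Finset.sum_le_sum fun k _ => ?_
    have h2 : ∑ i ∈ Finset.univ.filter (fun i => α i < θ), ‖(C k *ᵥ x) i‖ ^ 2
        = ∑ i ∈ Finset.univ.filter (fun i => α i < θ), ‖(C k *ᵥ y) i‖ ^ 2 := by
      refine Finset.sum_congr rfl fun i hi => ?_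
      rw [hCy k i (Finset.mem_filter.mp hi).2]
    rw [h2]
    exact Finset.sum_le_sum_of_subset_of_nonneg (Finset.filter_subset _ _)
      (fun i _ _ => by positivity)

end Pool.Agent.V11196.GP
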