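import Mathlib

/-! Conjugation by an exponential preserves a finite-dimensional subspace which is stable under
the adjoint action. -/

namespace Pool.Agent.V11196.GP

set_option linter.unusedSectionVars false
set_option linter.style.haveILetI false

section ExpConj

variable {A : Type*} [NormedRing A] [NormedAlgebra ℂ A] [CompleteSpace A]

theorem exp_add_comm' (x y : A) (hxy : Commute x y) :
    NormedSpace.exp (x + y) = NormedSpace.exp x * NormedSpace.exp y :=
  NormedSpace.exp_add_of_commute_of_mem_ball (𝕂 := ℂ) hxy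
    ((NormedSpace.expSeries_radius_eq_top ℂ A).symm ▸ edist_lt_top _ _)
    ((NormedSpace.expSeries_radius_eq_top ℂ A).symm ▸ edist_lt_top _ _)

/-- left multiplication -/
noncomputable def Lm : A →L[ℂ] (A →L[ℂ] A) := ContinuousLinearMap.mul ℂ A

/-- right multiplication -/
noncomputable def Rm : A →L[ℂ] (A →L[ℂ] A) := (ContinuousLinearMap.mul ℂ A).flip

theorem Lm_apply (Y X : A) : Lm Y X = Y * X := rfl
theorem Rm_apply (Y X : A) : Rm Y X = X * Y := rfl

theorem Lm_pow (Y : A) (k : ℕ) : Lm (Y ^ k) = (Lm Y) ^ k := by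
  induction k with
  | zero => ext X; simp [Lm_apply]
  | succ k ih =>
    ext X
    rw [pow_succ, pow_succ, ← ih]
    simp [Lm_apply, mul_assoc]

theorem Rm_pow (Y : A) (k : ℕ) : Rm (Y ^ k) = (Rm Y) ^ k := by
  induction k with
  | zero => ext X; simp [Rm_apply]
  | succ k ih =>
    ext X
    rw [pow_succ', pow_succ, ← ih]
    simp [Rm_apply, mul_assoc]

theorem Lm_exp (Y : A) : Lm (NormedSpace.exp Y) = NormedSpace.exp (Lm Y) := by
  have h1 := (NormedSpace.exp_series_hasSum_exp' (𝕂 := ℂ) Y).mapL (Lm (A := A))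
  have h2 := NormedSpace.exp_series_hasSum_exp' (𝕂 := ℂ) (Lm Y)
  have hf : (fun k : ℕ => Lm (((Nat.factorial k : ℂ)⁻¹) • Y ^ k))
      = fun k : ℕ => ((Nat.factorial k : ℂ)⁻¹) • (Lm Y) ^ k := by
    funext k
    rw [map_smul, Lm_pow]
  rw [hf] at h1
  exact HasSum.unique h1 h2

theorem Rm_exp (Y : A) : Rm (NormedSpace.exp Y) = NormedSpace.exp (Rm Y) := by
  have h1 := (NormedSpace.exp_series_hasSum_exp' (𝕂 := ℂ) Y).mapL (Rm (A := A))
  have h2 := NormedSpace.exp_series_hasSum_exp' (𝕂 := ℂ) (Rm Y)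
  have hf : (fun k : ℕ => Rm (((Nat.factorial k : ℂ)⁻¹) • Y ^ k))
      = fun k : ℕ => ((Nat.factorial k : ℂ)⁻¹) • (Rm Y) ^ k := by
    funext k
    rw [map_smul, Rm_pow]
  rw [hf] at h1
  exact HasSum.unique h1 h2

theorem exp_conj_mem [FiniteDimensional ℂ A] (V : Submodule ℂ A) (Y : A)
    (hY : ∀ X ∈ V, Y * X - X * Y ∈ V) (X : A) (hX : X ∈ V) :
    NormedSpace.exp Y * X * NormedSpace.exp (-Y) ∈ V := by
  have hc : Commute (Lm Y) (Rm (-Y)) := by
    ext Z
    simp [Lm_apply, Rm_apply, mul_assoc]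
  have h1 : NormedSpace.exp (Lm Y + Rm (-Y)) X
      = NormedSpace.exp Y * X * NormedSpace.exp (-Y) := by
    rw [exp_add_comm' _ _ hc, ← Lm_exp, ← Rm_exp]
    simp [Lm_apply, Rm_apply, mul_assoc]
  have h2 := (NormedSpace.exp_series_hasSum_exp' (𝕂 := ℂ) (Lm Y + Rm (-Y))).mapL
    (ContinuousLinearMap.apply ℂ A X)
  rw [← h1]
  have hcl : IsClosed (V : Set A) := V.closed_of_finiteDimensional
  have hmem : ∀ k : ℕ, ((Lm Y + Rm (-Y)) ^ k) X ∈ V := by
    intro k
    induction k with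
    | zero => simpa using hX
    | succ k ih =>
      rw [pow_succ']
      have : ((Lm Y + Rm (-Y)) * (Lm Y + Rm (-Y)) ^ k) X
          = Y * (((Lm Y + Rm (-Y)) ^ k) X) - (((Lm Y + Rm (-Y)) ^ k) X) * Y := by
        simp [Lm_apply, Rm_apply, sub_eq_add_neg]
      rw [this]
      exact hY _ ih
  refine hcl.mem_of_tendsto h2 (Filter.Eventually.of_forall fun s => ?_)
  refine V.sum_mem fun k _ => ?_
  have : (ContinuousLinearMap.apply ℂ A X) (((Nat.factorial k : ℂ)⁻¹) • (Lm Y + Rm (-Y)) ^ k)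
      = ((Nat.factorial k : ℂ)⁻¹) • ((Lm Y + Rm (-Y)) ^ k) X := by
    simp
  rw [this]
  exact V.smul_mem _ (hmem k)

end ExpConj

section MatrixExp

open scoped Matrix

variable {n : Type*} [Fintype n] [DecidableEq n]

theorem matrix_exp_conj_mem (V : Submodule ℂ (Matrix n n ℂ)) (Y : Matrix n n ℂ)
    (hY : ∀ X ∈ V, Y * X - X * Y ∈ V) (X : Matrix n n ℂ) (hX : X ∈ V) :
    NormedSpace.exp Y * X * NormedSpace.exp (-Y) ∈ V := by
  letI : NormedRing (Matrix n n ℂ) := Matrix.linftyOpNormedRing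
  letI : NormedAlgebra ℂ (Matrix n n ℂ) := Matrix.linftyOpNormedAlgebra
  exact exp_conj_mem V Y hY X hX

end MatrixExp

end Pool.Agent.V11196.GP
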