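import Mathlib
import Pool.Agent.V11196.GP.ExpConj

/-! Matrices normalising a subspace of matrices. -/

open scoped Matrix ComplexOrder

set_option linter.unusedSectionVars false

namespace Pool.Agent.V11196.GP

variable {n : Type*} [Fintype n] [DecidableEq n]

/-- `M` is invertible and conjugation by `M` maps `V` into `V`. -/
def Nz (V : Submodule ℂ (Matrix n n ℂ)) (M : Matrix n n ℂ) : Prop :=
  IsUnit M.det ∧ ∀ X ∈ V, M * X * M⁻¹ ∈ V

theorem Nz.mul {V : Submodule ℂ (Matrix n n ℂ)} {A B : Matrix n n ℂ} (hA : Nz V A)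
    (hB : Nz V B) : Nz V (A * B) := by
  refine ⟨by rw [Matrix.det_mul]; exact hA.1.mul hB.1, fun X hX => ?_⟩
  have h := hA.2 _ (hB.2 X hX)
  rw [Matrix.mul_inv_rev]
  have e : A * B * X * (B⁻¹ * A⁻¹) = A * (B * X * B⁻¹) * A⁻¹ := by
    simp only [Matrix.mul_assoc]
  rw [e]
  exact h

theorem Nz.of_inv {V : Submodule ℂ (Matrix n n ℂ)} {A B : Matrix n n ℂ} (hAB : A * B = 1)
    (h : ∀ X ∈ V, A * X * B ∈ V) : Nz V A := by
  have hd : IsUnit A.det := by
    have h1 : A.det * B.det = 1 := by rw [← Matrix.det_mul, hAB, Matrix.det_one]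
    exact IsUnit.of_mul_eq_one _ h1
  refine ⟨hd, fun X hX => ?_⟩
  rw [Matrix.inv_eq_right_inv hAB]
  exact h X hX

theorem Nz.smul {V : Submodule ℂ (Matrix n n ℂ)} {A : Matrix n n ℂ} {z : ℂ} (hz : z ≠ 0)
    (hA : Nz V A) : Nz V (z • A) := by
  have h1 : (z • A) * (z⁻¹ • A⁻¹) = 1 := by
    rw [Matrix.smul_mul, Matrix.mul_smul, smul_smul, mul_inv_cancel₀ hz, one_smul,
      Matrix.mul_nonsing_inv _ hA.1]
  refine Nz.of_inv h1 fun X hX => ?_
  have : z • A * X * (z⁻¹ • A⁻¹) = A * X * A⁻¹ := by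
    rw [Matrix.smul_mul, Matrix.smul_mul, Matrix.mul_smul, smul_smul, mul_inv_cancel₀ hz, one_smul]
  rw [this]
  exact hA.2 X hX

theorem Nz.exp {V : Submodule ℂ (Matrix n n ℂ)} (Y : Matrix n n ℂ)
    (hY : ∀ X ∈ V, Y * X - X * Y ∈ V) : Nz V (NormedSpace.exp Y) := by
  have h1 : NormedSpace.exp Y * NormedSpace.exp (-Y) = 1 := by
    rw [← Matrix.exp_add_of_commute _ _ ((Commute.refl Y).neg_right), add_neg_cancel,
      NormedSpace.exp_zero]
  exact Nz.of_inv h1 fun X hX => matrix_exp_conj_mem V Y hY X hX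

/-- multiply entries in the basis `W` -/
def Had (W : Matrix n n ℂ) (r : n → n → ℂ) (X : Matrix n n ℂ) : Matrix n n ℂ :=
  W * (Matrix.of fun i j => r i j * (Wᴴ * X * W) i j) * Wᴴ

theorem Had_comp {W : Matrix n n ℂ} (hW : Wᴴ * W = 1) (r s : n → n → ℂ) (X : Matrix n n ℂ) :
    Had W r (Had W s X) = Had W (fun i j => r i j * s i j) X := by
  unfold Had
  have h1 : Wᴴ * (W * (Matrix.of fun i j => s i j * (Wᴴ * X * W) i j) * Wᴴ) * W
      = Matrix.of fun i j => s i j * (Wᴴ * X * W) i j := by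
    calc _ = (Wᴴ * W) * (Matrix.of fun i j => s i j * (Wᴴ * X * W) i j) * (Wᴴ * W) := by
          simp only [Matrix.mul_assoc]
      _ = _ := by rw [hW, Matrix.one_mul, Matrix.mul_one]
  rw [h1]
  congr 2
  ext i j
  simp only [Matrix.of_apply]
  ring

theorem Had_add (W : Matrix n n ℂ) (r s : n → n → ℂ) (X : Matrix n n ℂ) :
    Had W (fun i j => r i j + s i j) X = Had W r X + Had W s X := by
  unfold Had
  rw [← Matrix.add_mul, ← Matrix.mul_add]
  congr 2
  ext i j
  simp only [Matrix.of_apply, Matrix.add_apply]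
  ring

theorem Had_const {W : Matrix n n ℂ} (hW : W * Wᴴ = 1) (z : ℂ) (X : Matrix n n ℂ) :
    Had W (fun _ _ => z) X = z • X := by
  unfold Had
  have : (Matrix.of fun i j => z * (Wᴴ * X * W) i j) = z • (Wᴴ * X * W) := by
    ext i j
    simp
  rw [this, Matrix.mul_smul, Matrix.smul_mul]
  congr 1
  calc W * (Wᴴ * X * W) * Wᴴ = (W * Wᴴ) * X * (W * Wᴴ) := by simp only [Matrix.mul_assoc]
    _ = X := by rw [hW, Matrix.one_mul, Matrix.mul_one]

theorem Had_poly {V : Submodule ℂ (Matrix n n ℂ)} {W : Matrix n n ℂ} (hW : Wᴴ * W = 1)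
    (r : n → n → ℂ) (hr : ∀ X ∈ V, Had W r X ∈ V) (p : Polynomial ℂ) :
    ∀ X ∈ V, Had W (fun i j => p.eval (r i j)) X ∈ V := by
  have hW' : W * Wᴴ = 1 := mul_eq_one_comm.mp hW
  induction p using Polynomial.induction_on' with
  | add p q hp hq =>
    intro X hX
    have : (fun i j => (p + q).eval (r i j)) = fun i j => p.eval (r i j) + q.eval (r i j) := by
      funext i j
      simp
    rw [this, Had_add]
    exact V.add_mem (hp X hX) (hq X hX)
  | monomial k a =>
    induction k with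
    | zero =>
      intro X hX
      have : (fun i j => ((Polynomial.monomial 0 a).eval (r i j))) = fun _ _ => a := by
        funext i j
        simp
      rw [this, Had_const hW']
      exact V.smul_mem _ hX
    | succ k ih =>
      intro X hX
      have : (fun i j => ((Polynomial.monomial (k + 1) a).eval (r i j)))
          = fun i j => r i j * ((Polynomial.monomial k a).eval (r i j)) := by
        funext i j
        simp only [Polynomial.eval_monomial]
        ring
      rw [this, ← Had_comp hW]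
      exact hr _ (ih X hX)

theorem Had_fun {V : Submodule ℂ (Matrix n n ℂ)} {W : Matrix n n ℂ} (hW : Wᴴ * W = 1)
    (r : n → n → ℂ) (hr : ∀ X ∈ V, Had W r X ∈ V) (f : ℂ → ℂ) :
    ∀ X ∈ V, Had W (fun i j => f (r i j)) X ∈ V := by
  classical
  let s : Finset ℂ := Finset.univ.image fun q : n × n => r q.1 q.2
  have h := Had_poly hW r hr (Lagrange.interpolate s id f)
  have e : (fun i j => (Lagrange.interpolate s id f).eval (r i j)) = fun i j => f (r i j) := by
    funext i j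
    have hm : r i j ∈ s := Finset.mem_image.mpr ⟨(i, j), Finset.mem_univ _, rfl⟩
    have := Lagrange.eval_interpolate_at_node (v := id) f (Function.injective_id.injOn) hm
    simpa using this
  rw [e] at h
  exact h

theorem diag_conj_eq (W : Matrix n n ℂ) (t u : n → ℂ) (X : Matrix n n ℂ) :
    (W * Matrix.diagonal t * Wᴴ) * X * (W * Matrix.diagonal u * Wᴴ)
      = Had W (fun i j => t i * u j) X := by
  unfold Had
  have : (Matrix.of fun i j => t i * u j * (Wᴴ * X * W) i j)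
      = Matrix.diagonal t * (Wᴴ * X * W) * Matrix.diagonal u := by
    ext i j
    rw [Matrix.mul_diagonal, Matrix.diagonal_mul]
    simp only [Matrix.of_apply]
    ring
  rw [this]
  simp only [Matrix.mul_assoc]

theorem diag_mul_diag {W : Matrix n n ℂ} (hW : Wᴴ * W = 1) (t u : n → ℂ) :
    (W * Matrix.diagonal t * Wᴴ) * (W * Matrix.diagonal u * Wᴴ)
      = W * Matrix.diagonal (fun i => t i * u i) * Wᴴ := by
  calc _ = W * Matrix.diagonal t * (Wᴴ * W) * Matrix.diagonal u * Wᴴ := by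
        simp only [Matrix.mul_assoc]
    _ = _ := by
        rw [hW, Matrix.mul_one, Matrix.mul_assoc W, Matrix.diagonal_mul_diagonal]

theorem diag_one {W : Matrix n n ℂ} (hW : W * Wᴴ = 1) (t : n → ℂ) (ht : ∀ i, t i = 1) :
    W * Matrix.diagonal t * Wᴴ = 1 := by
  have : t = fun _ => 1 := funext ht
  rw [this, Matrix.diagonal_one, Matrix.mul_one, hW]

theorem diag_herm (W : Matrix n n ℂ) (t : n → ℝ) :
    (W * Matrix.diagonal (fun i => (t i : ℂ)) * Wᴴ)ᴴ
      = W * Matrix.diagonal (fun i => (t i : ℂ)) * Wᴴ := by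
  rw [Matrix.conjTranspose_mul, Matrix.conjTranspose_mul, Matrix.conjTranspose_conjTranspose,
    Matrix.diagonal_conjTranspose, Matrix.mul_assoc]
  congr 3
  ext i
  simp

theorem Nz_diag {V : Submodule ℂ (Matrix n n ℂ)} {W : Matrix n n ℂ} (hW : Wᴴ * W = 1)
    (r : n → n → ℂ) (hr : ∀ X ∈ V, Had W r X ∈ V) (t u : n → ℂ) (htu : ∀ i, t i * u i = 1)
    (f : ℂ → ℂ) (hf : ∀ i j, t i * u j = f (r i j)) :
    Nz V (W * Matrix.diagonal t * Wᴴ) := by
  have hW' : W * Wᴴ = 1 := mul_eq_one_comm.mp hW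
  refine Nz.of_inv (B := W * Matrix.diagonal u * Wᴴ) ?_ fun X hX => ?_
  · rw [diag_mul_diag hW]
    exact diag_one hW' _ htu
  · rw [diag_conj_eq]
    have : (fun i j => t i * u j) = fun i j => f (r i j) := by
      funext i j
      exact hf i j
    rw [this]
    exact Had_fun hW r hr f X hX

theorem spectral_form {S : Matrix n n ℂ} (hS : S.IsHermitian) :
    ∃ (W : Matrix n n ℂ) (s : n → ℝ), Wᴴ * W = 1 ∧
      S = W * Matrix.diagonal (fun i => (s i : ℂ)) * Wᴴ ∧ s = hS.eigenvalues := by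
  refine ⟨(hS.eigenvectorUnitary : Matrix n n ℂ), hS.eigenvalues, ?_, ?_, rfl⟩
  · have := Unitary.coe_star_mul_self hS.eigenvectorUnitary
    rw [Matrix.star_eq_conjTranspose] at this
    exact this
  · have := hS.spectral_theorem
    rw [Unitary.conjStarAlgAut_apply] at this
    exact this

theorem exists_sqrt {V : Submodule ℂ (Matrix n n ℂ)} {S : Matrix n n ℂ} (hS : S.PosDef)
    (hN : Nz V S) : ∃ P Q : Matrix n n ℂ, Pᴴ = P ∧ Qᴴ = Q ∧ P * P = S ∧ P * Q = 1 ∧ Q * P = 1 ∧
      Nz V Q := by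
  obtain ⟨W, s, hW, hSW, hs⟩ := spectral_form hS.1
  have hpos : ∀ i, 0 < s i := by
    intro i
    rw [hs]
    exact hS.eigenvalues_pos i
  have hW' : W * Wᴴ = 1 := mul_eq_one_comm.mp hW
  have hsq : ∀ i, 0 < Real.sqrt (s i) := fun i => Real.sqrt_pos.mpr (hpos i)
  have hinv : S⁻¹ = W * Matrix.diagonal (fun i => (((s i)⁻¹ : ℝ) : ℂ)) * Wᴴ := by
    refine Matrix.inv_eq_right_inv ?_
    rw [hSW, diag_mul_diag hW]
    refine diag_one hW' _ fun i => ?_
    rw [← Complex.ofReal_mul, mul_inv_cancel₀ (hpos i).ne', Complex.ofReal_one]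
  refine ⟨W * Matrix.diagonal (fun i => ((Real.sqrt (s i) : ℝ) : ℂ)) * Wᴴ,
    W * Matrix.diagonal (fun i => (((Real.sqrt (s i))⁻¹ : ℝ) : ℂ)) * Wᴴ,
    diag_herm W _, diag_herm W _, ?_, ?_, ?_, ?_⟩
  · rw [diag_mul_diag hW, hSW]
    congr 3
    funext i
    rw [← Complex.ofReal_mul, Real.mul_self_sqrt (hpos i).le]
  · rw [diag_mul_diag hW]
    refine diag_one hW' _ fun i => ?_
    rw [← Complex.ofReal_mul, mul_inv_cancel₀ (hsq i).ne', Complex.ofReal_one]
  · rw [diag_mul_diag hW]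
    refine diag_one hW' _ fun i => ?_
    rw [← Complex.ofReal_mul, inv_mul_cancel₀ (hsq i).ne', Complex.ofReal_one]
  · refine Nz_diag hW (fun i j => (s i : ℂ) * (((s j)⁻¹ : ℝ) : ℂ)) ?_ _
      (fun i => ((Real.sqrt (s i) : ℝ) : ℂ)) ?_
      (fun z => (((Real.sqrt z.re)⁻¹ : ℝ) : ℂ)) ?_
    · intro X hX
      rw [← diag_conj_eq, ← hSW, ← hinv]
      exact hN.2 X hX
    · intro i
      rw [← Complex.ofReal_mul, inv_mul_cancel₀ (hsq i).ne', Complex.ofReal_one]
    · intro i j
      rw [← Complex.ofReal_mul, ← Complex.ofReal_mul]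
      congr 1
      rw [Complex.ofReal_re, Real.sqrt_mul (hpos i).le, Real.sqrt_inv, mul_inv, inv_inv]

end Pool.Agent.V11196.GP
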