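import Mathlib
import Pool.Agent.V11196.GP.Nz

/-! A block triangular factorisation `M = U * C` with `U` unitary and normalising `V`. -/

open scoped Matrix ComplexOrder Topology

set_option linter.unusedSectionVars false

namespace Pool.Agent.V11196.GP

variable {n : Type*} [Fintype n] [DecidableEq n]

theorem subseq_pi (u : ℕ → n → n → ℂ) (hu : ∀ k i j, ‖u k i j‖ ≤ 1) :
    ∃ (a : n → n → ℂ) (φ : ℕ → ℕ), StrictMono φ ∧
      Filter.Tendsto (fun k => u (φ k)) Filter.atTop (𝓝 a) := by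
  have hc : IsCompact (Set.pi Set.univ fun _ : n => Set.pi Set.univ fun _ : n =>
      Metric.closedBall (0 : ℂ) 1) := by
    refine isCompact_univ_pi fun _ => isCompact_univ_pi fun _ => isCompact_closedBall _ _
  have hm : ∀ k, u k ∈ (Set.pi Set.univ fun _ : n => Set.pi Set.univ fun _ : n =>
      Metric.closedBall (0 : ℂ) 1) := by
    intro k i _ j _
    simpa using hu k i j
  obtain ⟨a, _, φ, hφ, ht⟩ := hc.tendsto_subseq hm
  exact ⟨a, φ, hφ, ht⟩

theorem subseq_of_bounded (u : ℕ → Matrix n n ℂ) (hu : ∀ k i j, ‖u k i j‖ ≤ 1) :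
    ∃ (a : Matrix n n ℂ) (φ : ℕ → ℕ), StrictMono φ ∧
      Filter.Tendsto (fun k => u (φ k)) Filter.atTop (𝓝 a) :=
  subseq_pi u hu

theorem cont_entry (A M W : Matrix n n ℂ) (p q : n) :
    Continuous fun Z : Matrix n n ℂ => ‖(A * Zᴴ * M * W) p q‖ := by
  have h0 : Continuous fun Z : Matrix n n ℂ => Zᴴ := continuous_id.matrix_conjTranspose
  have h1 : Continuous fun Z : Matrix n n ℂ => A * Zᴴ := continuous_const.matrix_mul h0
  have h2 : Continuous fun Z : Matrix n n ℂ => A * Zᴴ * M := h1.matrix_mul continuous_const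
  have h3 : Continuous fun Z : Matrix n n ℂ => A * Zᴴ * M * W := h2.matrix_mul continuous_const
  exact (h3.matrix_elem p q).norm

theorem limit_step (V : Submodule ℂ (Matrix n n ℂ)) (M W : Matrix n n ℂ) (α : n → ℝ)
    (U : ℕ → Matrix n n ℂ) (hUU : ∀ k, (U k)ᴴ * U k = 1)
    (hUN : ∀ k, ∀ X ∈ V, U k * X * (U k)ᴴ ∈ V)
    (hnorm : ∀ k i j, ‖(Wᴴ * (U k)ᴴ * M * W) i j‖
      = ‖(Wᴴ * (U k)ᴴ * M * W) j i‖ * Real.exp (-(α j - α i)) ^ k) :
    ∃ U : Matrix n n ℂ, Uᴴ * U = 1 ∧ (∀ X ∈ V, U * X * Uᴴ ∈ V) ∧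
      ∀ i j, α i < α j → (Wᴴ * Uᴴ * M * W) i j = 0 := by
  have hb : ∀ k i j, ‖U k i j‖ ≤ 1 := by
    intro k i j
    refine entry_norm_bound_of_unitary ?_ i j
    rw [Matrix.mem_unitaryGroup_iff']
    exact hUU k
  obtain ⟨u, φ, hφ, hlim⟩ := subseq_of_bounded U hb
  refine ⟨u, ?_, ?_, ?_⟩
  · have hcont : Continuous fun Z : Matrix n n ℂ => Zᴴ * Z := by fun_prop
    have h1 : Filter.Tendsto (fun k => (U (φ k))ᴴ * U (φ k)) Filter.atTop (𝓝 (uᴴ * u)) :=
      (hcont.tendsto u).comp hlim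
    have h2 : (fun k => (U (φ k))ᴴ * U (φ k)) = fun _ => (1 : Matrix n n ℂ) := by
      funext k
      exact hUU (φ k)
    rw [h2] at h1
    exact (tendsto_nhds_unique h1 tendsto_const_nhds)
  · intro X hX
    have hV : IsClosed (V : Set (Matrix n n ℂ)) := V.closed_of_finiteDimensional
    have hcont : Continuous fun Z : Matrix n n ℂ => Z * X * Zᴴ := by fun_prop
    have h1 : Filter.Tendsto (fun k => U (φ k) * X * (U (φ k))ᴴ) Filter.atTop
        (𝓝 (u * X * uᴴ)) := (hcont.tendsto u).comp hlim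
    refine hV.mem_of_tendsto h1 (Filter.Eventually.of_forall fun k => ?_)
    exact hUN (φ k) X hX
  · intro i j hij
    have hcont : ∀ p q, Continuous fun Z : Matrix n n ℂ => ‖(Wᴴ * Zᴴ * M * W) p q‖ :=
      fun p q => cont_entry Wᴴ M W p q
    have h1 : Filter.Tendsto (fun k => ‖(Wᴴ * (U (φ k))ᴴ * M * W) i j‖) Filter.atTop
        (𝓝 ‖(Wᴴ * uᴴ * M * W) i j‖) := ((hcont i j).tendsto u).comp hlim
    have h2 : Filter.Tendsto (fun k => ‖(Wᴴ * (U (φ k))ᴴ * M * W) j i‖) Filter.atTop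
        (𝓝 ‖(Wᴴ * uᴴ * M * W) j i‖) := ((hcont j i).tendsto u).comp hlim
    have h3 : Filter.Tendsto (fun k => Real.exp (-(α j - α i)) ^ (φ k)) Filter.atTop (𝓝 0) := by
      refine (tendsto_pow_atTop_nhds_zero_of_lt_one (Real.exp_pos _).le ?_).comp hφ.tendsto_atTop
      rw [Real.exp_lt_one_iff]
      linarith
    have h4 := h2.mul h3
    rw [mul_zero] at h4
    have h5 : (fun k => ‖(Wᴴ * (U (φ k))ᴴ * M * W) i j‖)
        = fun k => ‖(Wᴴ * (U (φ k))ᴴ * M * W) j i‖ * Real.exp (-(α j - α i)) ^ (φ k) := by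
      funext k
      exact hnorm (φ k) i j
    rw [h5] at h1
    have h6 := tendsto_nhds_unique h1 h4
    exact norm_eq_zero.mp h6

theorem iwasawa (V : Submodule ℂ (Matrix n n ℂ)) (M : Matrix n n ℂ) (hM : Nz V M)
    (hMh : Nz V Mᴴ) (W : Matrix n n ℂ) (hW : Wᴴ * W = 1) (α : n → ℝ)
    (ha : ∀ X ∈ V, Had W (fun i j => (α i : ℂ) - (α j : ℂ)) X ∈ V) :
    ∃ U : Matrix n n ℂ, Uᴴ * U = 1 ∧ (∀ X ∈ V, U * X * Uᴴ ∈ V) ∧
      ∀ i j, α i < α j → (Wᴴ * Uᴴ * M * W) i j = 0 := by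
  have hW' : W * Wᴴ = 1 := mul_eq_one_comm.mp hW
  -- the diagonal elements
  let E : ℕ → Matrix n n ℂ := fun k =>
    W * Matrix.diagonal (fun i => ((Real.exp (k * α i) : ℝ) : ℂ)) * Wᴴ
  let F : ℕ → Matrix n n ℂ := fun k =>
    W * Matrix.diagonal (fun i => ((Real.exp (-(k * α i)) : ℝ) : ℂ)) * Wᴴ
  have hEH : ∀ k, (E k)ᴴ = E k := fun k => diag_herm W _
  have hEF : ∀ k, E k * F k = 1 := by
    intro k
    show (W * Matrix.diagonal _ * Wᴴ) * (W * Matrix.diagonal _ * Wᴴ) = 1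
    rw [diag_mul_diag hW]
    refine diag_one hW' _ fun i => ?_
    rw [← Complex.ofReal_mul, ← Real.exp_add, add_neg_cancel, Real.exp_zero, Complex.ofReal_one]
  have hEN : ∀ k, Nz V (E k) := by
    intro k
    refine Nz_diag hW (fun i j => (α i : ℂ) - (α j : ℂ)) ha _
      (fun i => ((Real.exp (-(k * α i)) : ℝ) : ℂ)) ?_
      (fun z => ((Real.exp (k * z.re) : ℝ) : ℂ)) ?_
    · intro i
      rw [← Complex.ofReal_mul, ← Real.exp_add, add_neg_cancel, Real.exp_zero, Complex.ofReal_one]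
    · intro i j
      rw [← Complex.ofReal_mul, ← Real.exp_add]
      congr 2
      simp
      ring
  -- the positive elements
  have hSpos : ∀ k, (E k * Mᴴ * (M * E k)).PosDef := by
    intro k
    have h1 : E k * Mᴴ * (M * E k) = (M * E k)ᴴ * (M * E k) := by
      rw [Matrix.conjTranspose_mul, hEH]
    rw [h1]
    refine Matrix.PosDef.conjTranspose_mul_self _ ?_
    have hu : IsUnit (M * E k) := by
      rw [Matrix.isUnit_iff_isUnit_det]
      exact (hM.mul (hEN k)).1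
    exact Matrix.mulVec_injective_iff_isUnit.mpr hu
  have hSN : ∀ k, Nz V (E k * Mᴴ * (M * E k)) := fun k =>
    ((hEN k).mul hMh).mul (hM.mul (hEN k))
  choose P Q hP hQ hPP hPQ hQP hQN using fun k => exists_sqrt (hSpos k) (hSN k)
  let U : ℕ → Matrix n n ℂ := fun k => M * E k * Q k
  have hUU : ∀ k, (U k)ᴴ * U k = 1 := by
    intro k
    show (M * E k * Q k)ᴴ * (M * E k * Q k) = 1
    rw [Matrix.conjTranspose_mul, Matrix.conjTranspose_mul, hQ, hEH]
    calc Q k * (E k * Mᴴ) * (M * E k * Q k) = Q k * (E k * Mᴴ * (M * E k)) * Q k := by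
          simp only [Matrix.mul_assoc]
      _ = (Q k * P k) * (P k * Q k) := by
          rw [← hPP k]
          simp only [Matrix.mul_assoc]
      _ = 1 := by rw [hQP, hPQ, Matrix.mul_one]
  have hUUi : ∀ k, (U k)⁻¹ = (U k)ᴴ := fun k => Matrix.inv_eq_left_inv (hUU k)
  have hUN : ∀ k, ∀ X ∈ V, U k * X * (U k)ᴴ ∈ V := by
    intro k X hX
    rw [← hUUi k]
    exact ((hM.mul (hEN k)).mul (hQN k)).2 X hX
  have hUM : ∀ k, (U k)ᴴ * M = P k * F k := by
    intro k
    show (M * E k * Q k)ᴴ * M = P k * F k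
    rw [Matrix.conjTranspose_mul, Matrix.conjTranspose_mul, hQ, hEH]
    calc Q k * (E k * Mᴴ) * M = Q k * (E k * Mᴴ) * M * (E k * F k) := by
          rw [hEF, Matrix.mul_one]
      _ = Q k * (E k * Mᴴ * (M * E k)) * F k := by simp only [Matrix.mul_assoc]
      _ = (Q k * P k) * P k * F k := by
          rw [← hPP k]
          simp only [Matrix.mul_assoc]
      _ = P k * F k := by rw [hQP, Matrix.one_mul]
  -- entries
  have hent : ∀ k i j, (Wᴴ * (U k)ᴴ * M * W) i j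
      = (Wᴴ * P k * W) i j * ((Real.exp (-(k * α j)) : ℝ) : ℂ) := by
    intro k i j
    have : Wᴴ * (U k)ᴴ * M * W
        = (Wᴴ * P k * W) * Matrix.diagonal (fun i => ((Real.exp (-(k * α i)) : ℝ) : ℂ)) := by
      calc Wᴴ * (U k)ᴴ * M * W = Wᴴ * ((U k)ᴴ * M) * W := by simp only [Matrix.mul_assoc]
        _ = Wᴴ * (P k * F k) * W := by rw [hUM]
        _ = (Wᴴ * P k * W) * Matrix.diagonal (fun i => ((Real.exp (-(k * α i)) : ℝ) : ℂ))
              * (Wᴴ * W) := by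
            show Wᴴ * (P k * (W * Matrix.diagonal _ * Wᴴ)) * W = _
            simp only [Matrix.mul_assoc]
        _ = _ := by rw [hW, Matrix.mul_one]
    rw [this, Matrix.mul_diagonal]
  have hPt : ∀ k i j, ‖(Wᴴ * P k * W) i j‖ = ‖(Wᴴ * P k * W) j i‖ := by
    intro k i j
    have h1 : (Wᴴ * P k * W)ᴴ = Wᴴ * P k * W := by
      rw [Matrix.conjTranspose_mul, Matrix.conjTranspose_mul, Matrix.conjTranspose_conjTranspose,
        hP, Matrix.mul_assoc]
    have h2 : (Wᴴ * P k * W)ᴴ i j = star ((Wᴴ * P k * W) j i) := Matrix.conjTranspose_apply _ _ _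
    rw [h1] at h2
    rw [h2, norm_star]
  have hnorm : ∀ k i j, ‖(Wᴴ * (U k)ᴴ * M * W) i j‖
      = ‖(Wᴴ * (U k)ᴴ * M * W) j i‖ * Real.exp (-(α j - α i)) ^ k := by
    intro k i j
    rw [hent, hent, norm_mul, norm_mul, hPt k i j, Complex.norm_real, Complex.norm_real,
      Real.norm_of_nonneg (Real.exp_pos _).le, Real.norm_of_nonneg (Real.exp_pos _).le,
      ← Real.exp_nat_mul]
    generalize ‖(Wᴴ * P k * W) j i‖ = x
    have h1 : Real.exp (-(k * α i)) * Real.exp (k * (-(α j - α i))) = Real.exp (-(k * α j)) := by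
      rw [← Real.exp_add]
      congr 1
      ring
    rw [← h1]
    ring
  exact limit_step V M W α U hUU hUN hnorm

end Pool.Agent.V11196.GP
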